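import Pool.Agent.helper62.DP7.Spec

set_option autoImplicit false

namespace Pool.Agent.helper62.DP7

open Finset

theorem OUT_sum0 {V : Type} (N : Finset V) (f : V → ℕ) (h : ∀ y ∈ N, f y ≤ 3) :
    ∑ y ∈ N, f y ≤ 3 * N.card := by
  exact (Finset.sum_le_card_nsmul N f 3 h).trans (by rw [smul_eq_mul, mul_comm])

theorem OUT_sum1 {V : Type} (N : Finset V) (f : V → ℕ) (t : ℕ) (v : V) (hv : v ∈ N)
    (ht : f v + t ≤ 3) (h : ∀ y ∈ N, f y ≤ 3) : ∑ y ∈ N, f y + t ≤ 3 * N.card := by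
  classical
  have h1 := Finset.add_sum_erase N f hv
  have h2 := OUT_sum0 (N.erase v) f (fun y hy => h y (mem_of_mem_erase hy))
  have h3 := card_erase_add_one hv
  omega

theorem OUT_sum2 {V : Type} (N : Finset V) (f : V → ℕ) (v v' : V) (hv : v ∈ N) (hv' : v' ∈ N)
    (hne : v ≠ v') (h1 : f v ≤ 2) (h2 : f v' ≤ 2) (h : ∀ y ∈ N, f y ≤ 3) :
    ∑ y ∈ N, f y + 2 ≤ 3 * N.card := by
  classical
  have h3 := Finset.add_sum_erase N f hv
  have h4 := OUT_sum1 (N.erase v) f 1 v' (mem_erase.2 ⟨hne.symm, hv'⟩) (by omega)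
    (fun y hy => h y (mem_of_mem_erase hy))
  have h5 := card_erase_add_one hv
  omega

theorem OUT (hDEG : DEG_stmt) : OUT_stmt := by
  classical
  intro V G A B T z hz hBA hTA hTB hT
  have hd : Disjoint (qn G A B z) T := by
    rw [Finset.disjoint_left]
    intro x hx hxT
    exact (Finset.disjoint_left.1 hTB) hxT (mem_qn.1 hx).1
  have hsub : qn G A B z ∪ T ⊆ qn G A A z := by
    intro x hx
    rw [mem_union] at hx
    rcases hx with hx | hx
    · exact mem_qn.2 ⟨hBA (mem_qn.1 hx).1, (mem_qn.1 hx).2⟩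
    · exact mem_qn.2 ⟨hTA hx, hT x hx⟩
  have h1 : (qn G A B z).card + T.card ≤ ∑ y ∈ nb G A z, (nb G A y).card := by
    rw [← card_union_of_disjoint hd]
    exact (card_le_card hsub).trans (hDEG V G A z hz)
  have hle : (∀ x ∈ A, (nb G A x).card ≤ 3) → ∀ y ∈ nb G A z, (nb G A y).card ≤ 3 :=
    fun h y hy => h y (mem_nb.1 hy).1
  refine ⟨h1, ?_, ?_, ?_, ?_⟩
  · intro h3
    exact h1.trans (OUT_sum0 _ _ (hle h3))
  · rintro h3 ⟨v, hv, hv2⟩
    have := OUT_sum1 (nb G A z) (fun y => (nb G A y).card) 1 v hv (by omega) (hle h3)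
    omega
  · rintro h3 ⟨v, hv, hv2⟩
    have := OUT_sum1 (nb G A z) (fun y => (nb G A y).card) 2 v hv (by omega) (hle h3)
    omega
  · rintro h3 ⟨v, hv, v', hv', hne, hv2, hv2'⟩
    have := OUT_sum2 (nb G A z) (fun y => (nb G A y).card) v v' hv hv' hne hv2 hv2' (hle h3)
    omega

end Pool.Agent.helper62.DP7
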